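import Pool.Agent.H58.Kah4

namespace Pool.Agent.Results.MP_164ed8_gt.Q2No
open Pool.Agent.H58.Kah

theorem result (n : ℕ) (hn : 0 < n) : ∃ (X : Set (Fin n → ℂ)) (h₀ h₁ : HM n),
    IsOpen X ∧ IsConnected X ∧ IsKE X h₀ ∧ 0 < lambda0 X h₀ ∧ InK X h₁ ∧
    (∀ z ∈ X, h₁ z ≠ h₀ z) ∧ lambda0 X h₀ ≤ lambda0 X h₁ := by
  refine ⟨X n, H 0, H 1, X_open, X_conn, ⟨kahler le_rfl, complete le_rfl, fun z hz => ric0 hz⟩,
    lt_of_lt_of_le (by positivity) (lam_ge le_rfl zero_le_one),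
    ⟨kahler zero_le_one, complete zero_le_one, fun z hz => ric1 hz⟩, fun z _ h => ?_,
    (lam_le hn).trans (lam_ge zero_le_one le_rfl)⟩
  have := congrFun (congrFun h ⟨0, hn⟩) ⟨0, hn⟩
  simp [H, lam] at this

end Pool.Agent.Results.MP_164ed8_gt.Q2No
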